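import Pool.Agent.Lib.helper5.DenseIm

namespace Pool.Agent.Results.MP_570618_gt.DenseImage

theorem result : ∃ (X : Type) (_ : TopologicalSpace X) (_ : T35Space X), CompactSpace X ∧
    (∃ (K : Type) (_ : TopologicalSpace K) (_ : T35Space K), CompactSpace K ∧
      ∃ e : X → {f : K → ℝ // Continuous f}, Topology.IsEmbedding e) ∧
    ∃ S : Set {f : X → ℝ // Continuous f}, Dense S ∧ H5D.Bad S H5D.Tight ∧
      H5D.Bad S (fun Z _ => SequentialSpace Z) ∧ H5D.Bad S H5D.Monol := H5D.main

end Pool.Agent.Results.MP_570618_gt.DenseImage
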